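import Pool.Agent.helper32.CK.Defs
import Pool.Agent.helper71.CK.F2

/-! # MP_25dcdb_an: flat vectors, domination and the core theorem -/

namespace Pool.Agent.helper32.CK

open scoped InnerProductSpace ComplexOrder
open Filter Topology Finset

universe u v w

section F
variable {I : Type u} [Fintype I] [DecidableEq I] {τ : ℝ} {Y : En I → En I}
  {S : (En I →L[ℂ] En I) → (En I →L[ℂ] En I)}

theorem F3_single_apply (j i : I) (c : ℂ) : (EuclideanSpace.single j c : En I) i = if i = j then c else 0 := by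
  simp [Pi.single_apply]

theorem F3_flat_apply (J : Finset I) (i : I) :
    flat J i = if i ∈ J then (((Real.sqrt (J.card : ℝ))⁻¹ : ℝ) : ℂ) else 0 := by
  unfold flat
  rw [PiLp.smul_apply]
  have e1 : (∑ j ∈ J, (EuclideanSpace.single j (1 : ℂ) : En I)) i = if i ∈ J then 1 else 0 := by
    rw [WithLp.ofLp_sum, Finset.sum_apply]
    simp_rw [F3_single_apply]
    rw [Finset.sum_ite_eq]
  rw [e1]
  split_ifs
  · push_cast; simp
  · simp

theorem F3_norm_flat (J : Finset I) (hJ : J.Nonempty) : ‖flat J‖ = 1 := by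
  have hc : (0 : ℝ) < J.card := by exact_mod_cast hJ.card_pos
  have e1 : ‖flat J‖ ^ 2 = 1 := by
    rw [EuclideanSpace.norm_sq_eq]
    have : ∀ i, ‖flat J i‖ ^ 2 = if i ∈ J then (J.card : ℝ)⁻¹ else 0 := by
      intro i
      rw [F3_flat_apply]
      split_ifs
      · rw [Complex.norm_real, Real.norm_of_nonneg (by positivity), inv_pow, Real.sq_sqrt hc.le]
      · simp
    simp_rw [this]
    rw [Finset.sum_ite_mem, Finset.univ_inter, Finset.sum_const, nsmul_eq_mul,
      mul_inv_cancel₀ hc.ne']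
  have := norm_nonneg (flat J)
  nlinarith

theorem F3_flat_singleton (j : I) : flat {j} = EuclideanSpace.single j (1 : ℂ) := by
  ext i
  rw [F3_flat_apply, F3_single_apply]
  simp

theorem F3_block (h : Core τ Y S) (hτ0 : 0 ≤ τ) (hτ : τ ≤ 1 / 10 ^ 6) (blk : I → I)
    (hb : ∀ i, blk (blk i) = blk i) :
    ∃ U : En I →L[ℂ] En I, (star U * U = 1 ∧ U * star U = 1) ∧
      (∀ k, blk k = k → U (EuclideanSpace.single k 1) = flat (univ.filter fun i => blk i = k)) ∧
      ∃ l : I → ℂ, (∀ k, ‖l k ^ 2 - 1‖ ≤ 15200 * τ) ∧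
        ‖S U - U * dg (fun i => l (blk i))‖ ≤ 2500 * τ := by
  classical
  let κ : Type u := {k : I // blk k = k}
  let f : I → κ := fun i => ⟨blk i, hb i⟩
  have hf : ∀ k : κ, f k.1 = k := fun k => Subtype.ext k.2
  let n : κ → ℕ := fun k => Fintype.card {i // f i = k}
  haveI hn : ∀ k, NeZero (n k) := fun k => ⟨by
    have : 0 < Fintype.card {i // f i = k} := Fintype.card_pos_iff.2 ⟨⟨k.1, hf k⟩⟩
    exact this.ne'⟩
  have hex : ∀ k : κ, ∃ ek : ZMod (n k) ≃ {i // f i = k}, ek 0 = ⟨k.1, hf k⟩ := by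
    intro k
    have hcard : Fintype.card (ZMod (n k)) = Fintype.card {i // f i = k} := ZMod.card _
    let e0 := Fintype.equivOfCardEq hcard
    refine ⟨e0.trans (Equiv.swap (e0 0) ⟨k.1, hf k⟩), ?_⟩
    simp
  choose ek hek using hex
  let e : (Σ k : κ, ZMod (n k)) ≃ I := (Equiv.sigmaCongrRight ek).trans (Equiv.sigmaFiberEquiv f)
  have he : ∀ k a, e ⟨k, a⟩ = (ek k a).1 := fun k a => rfl
  have hes : ∀ i, (e.symm i).1 = f i := by
    intro i
    obtain ⟨⟨k, a⟩, rfl⟩ := e.surjective i
    rw [Equiv.symm_apply_apply]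
    change k = f (ek k a).1
    exact (ek k a).2.symm
  obtain ⟨U, hU, hU2, l, hl1, hl2⟩ := h.block hτ0 hτ n e
  refine ⟨U, hU, ?_, fun i => l (f i), fun k => hl1 _, ?_⟩
  · intro k hk
    have e1 := hU2 ⟨k, hk⟩
    have e2 : e ⟨⟨k, hk⟩, 0⟩ = k := by
      rw [he, hek]
    rw [e2] at e1
    rw [e1]
    unfold flat
    have hset : ∀ i, (f i = ⟨k, hk⟩) ↔ blk i = k := fun i => Subtype.ext_iff
    have hc : (univ.filter fun i => blk i = k).card = n ⟨k, hk⟩ := by
      have : n ⟨k, hk⟩ = (univ.filter fun i => f i = ⟨k, hk⟩).card := Fintype.card_subtype _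
      rw [this]
      congr 1
      ext i
      simp [hset]
    rw [hc]
    congr 1
    rw [← Finset.sum_subtype_of_mem (p := fun i => f i = ⟨k, hk⟩)
      (f := fun i => (EuclideanSpace.single i (1 : ℂ) : En I))]
    · have e3 : (Finset.subtype (fun i => f i = ⟨k, hk⟩) (univ.filter fun i => blk i = k)) = univ := by
        ext ⟨i, hi⟩
        simp [(hset i).1 hi]
      rw [e3]
      exact Fintype.sum_equiv (ek ⟨k, hk⟩) _ _ (fun a => rfl)
    · intro i hi
      exact (hset i).2 (by simpa using hi)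
  · have e1 : (fun i => l (f (blk i))) = fun i => l (e.symm i).1 := by
      funext i
      rw [hes]
      congr 1
      exact Subtype.ext (hb i)
    change ‖S U - U * dg (fun i => l (f (blk i)))‖ ≤ _
    rw [e1]
    exact hl2

theorem F3_smul (h : Core τ Y S) (c : ℂ) (hc : ‖c‖ ≤ 1) (x : En I) (hx : ‖x‖ ≤ 1) :
    ‖Y (c • x) - c • Y x‖ ≤ τ := by
  have h1 := h.add x 0 c 0 hx (by simp) hc (by simp) (by
    rw [smul_zero, add_zero, norm_smul]
    calc ‖c‖ * ‖x‖ ≤ 1 * 1 := by gcongr
      _ = 1 := by norm_num)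
  simpa using h1

theorem F3_norm_dg1 (J : Finset I) (x : En I) :
    ‖dg (fun i => ((if i ∈ J then (1 : ℝ) else 0 : ℝ) : ℂ)) x‖ ≤ ‖x‖ := by
  have := F1_norm_dg_apply (fun i => ((if i ∈ J then (1 : ℝ) else 0 : ℝ) : ℂ)) 1 zero_le_one
    (fun i => by split_ifs <;> simp) x
  linarith

theorem F3_unit_norm {U : En I →L[ℂ] En I} (hU : star U * U = 1) (x : En I) : ‖U x‖ = ‖x‖ := by
  have h1 : ‖U x‖ ^ 2 = ‖x‖ ^ 2 := by
    have e1 : ⟪U x, U x⟫_ℂ = ⟪x, x⟫_ℂ := by
      rw [← ContinuousLinearMap.adjoint_inner_right U, ← ContinuousLinearMap.star_eq_adjoint]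
      have : (star U) (U x) = (star U * U) x := rfl
      rw [this, hU]
      rfl
    rw [inner_self_eq_norm_sq_to_K, inner_self_eq_norm_sq_to_K] at e1
    exact_mod_cast e1
  exact (pow_left_inj₀ (norm_nonneg _) (norm_nonneg _) two_ne_zero).1 h1

theorem F3_dg_single (d : I → ℂ) (k : I) :
    dg d (EuclideanSpace.single k 1) = d k • EuclideanSpace.single k (1 : ℂ) := by
  ext i
  rw [F1_dg_apply, PiLp.smul_apply, F3_single_apply, smul_eq_mul]
  split_ifs with h
  · rw [h]
  · simp

/-- on a block, `Y` multiplies the flat vector by `l`. -/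
theorem F3_blk_flat (h : Core τ Y S) (hτ0 : 0 ≤ τ) (hτ : τ ≤ 1 / 10 ^ 6) {blk : I → I}
    {U : En I →L[ℂ] En I} (hU : star U * U = 1)
    (hU2 : ∀ k, blk k = k → U (EuclideanSpace.single k 1) = flat (univ.filter fun i => blk i = k))
    {l : I → ℂ} (hl : ‖S U - U * dg (fun i => l (blk i))‖ ≤ 2500 * τ) (k : I) (hk : blk k = k) :
    ‖Y (flat (univ.filter fun i => blk i = k)) - l k • flat (univ.filter fun i => blk i = k)‖ ≤
      2504 * τ := by
  have hUn : ‖U‖ ≤ 1 := ContinuousLinearMap.opNorm_le_bound _ zero_le_one fun x => by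
    rw [F3_unit_norm hU, one_mul]
  have hsn : ‖(EuclideanSpace.single k (1 : ℂ) : En I)‖ ≤ 1 := by simp
  have h1 := h.op U hUn _ hsn
  rw [hU2 k hk] at h1
  have h2 : ‖S U (Y (EuclideanSpace.single k 1) - EuclideanSpace.single k 1)‖ ≤ 3 * τ :=
    (ContinuousLinearMap.le_opNorm _ _).trans (by
      gcongr
      · exact h.norm_op hτ0 hτ U hUn
      · exact h.base k)
  have h3 : ‖(S U - U * dg (fun i => l (blk i))) (EuclideanSpace.single k 1)‖ ≤ 2500 * τ * 1 :=
    (ContinuousLinearMap.le_opNorm _ _).trans (by gcongr)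
  have h4 : (U * dg (fun i => l (blk i))) (EuclideanSpace.single k 1) =
      l k • flat (univ.filter fun i => blk i = k) := by
    rw [ContinuousLinearMap.mul_apply, F3_dg_single, map_smul, hU2 k hk, hk]
  have e1 : Y (flat (univ.filter fun i => blk i = k)) - l k • flat (univ.filter fun i => blk i = k) =
      -(S U (Y (EuclideanSpace.single k 1)) - Y (flat (univ.filter fun i => blk i = k))) +
      (S U (Y (EuclideanSpace.single k 1) - EuclideanSpace.single k 1)) +
      (S U - U * dg (fun i => l (blk i))) (EuclideanSpace.single k 1) := by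
    rw [ContinuousLinearMap.sub_apply, h4, map_sub]
    abel
  rw [e1]
  refine (norm_add₃_le ..).trans ?_
  rw [norm_neg]
  linarith

theorem F3_near_one {z : ℂ} {τ : ℝ} (hτ0 : 0 ≤ τ) (hz : ‖z ^ 2 - 1‖ ≤ 15200 * τ)
    (hz1 : ‖z - 1‖ ≤ 1 / 2) : ‖z - 1‖ ≤ 15200 * τ := by
  have h1 : 1 ≤ ‖z + 1‖ := by
    have e1 : (2 : ℂ) = (z + 1) - (z - 1) := by ring
    have e2 : (2 : ℝ) ≤ ‖z + 1‖ + ‖z - 1‖ := by
      calc (2 : ℝ) = ‖(2 : ℂ)‖ := by norm_num
        _ = ‖(z + 1) - (z - 1)‖ := by rw [← e1]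
        _ ≤ _ := norm_sub_le _ _
    linarith
  have h2 : z ^ 2 - 1 = (z - 1) * (z + 1) := by ring
  rw [h2, norm_mul] at hz
  nlinarith [norm_nonneg (z - 1)]

theorem Core.flat_near (h : Core τ Y S) (hτ0 : 0 ≤ τ) (hτ : τ ≤ 1 / 10 ^ 6) (J : Finset I)
    (hJ : J.Nonempty) : ‖Y (flat J) - flat J‖ ≤ 18000 * τ := by
  induction hJ using Finset.Nonempty.cons_induction with
  | singleton j =>
    rw [F3_flat_singleton]
    exact (h.base j).trans (by linarith)
  | cons j J hj hJ ih =>
    set J' : Finset I := Finset.cons j J hj with hJ'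
    have hcJ : (0 : ℝ) < J.card := by exact_mod_cast hJ.card_pos
    have hcJ1 : (1 : ℝ) ≤ J.card := by exact_mod_cast hJ.card_pos
    have hcJ' : (J'.card : ℝ) = J.card + 1 := by
      rw [hJ', Finset.card_cons]; push_cast; ring
    -- block partition
    obtain ⟨U, hU, hU2, l, hl1, hl2⟩ := F3_block h hτ0 hτ (fun i => if i ∈ J' then j else i) (by
      intro i
      by_cases hi : i ∈ J'
      · have : j ∈ J' := by rw [hJ']; exact Finset.mem_cons_self j J
        simp [hi, this]
      · simp [hi])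
    have hjJ' : j ∈ J' := by rw [hJ']; exact Finset.mem_cons_self j J
    have hfib : (univ.filter fun i => (if i ∈ J' then j else i) = j) = J' := by
      ext i
      simp only [Finset.mem_filter, Finset.mem_univ, true_and]
      constructor
      · intro h0
        split_ifs at h0 with h1
        · exact h1
        · rw [h0]; exact hjJ'
      · intro h0
        rw [if_pos h0]
    have h1 := F3_blk_flat h hτ0 hτ hU.1 hU2 hl2 j (by simp [hjJ'])
    rw [hfib] at h1
    set lam := l j with hlam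
    have hlam2 : ‖lam ^ 2 - 1‖ ≤ 15200 * τ := hl1 j
    -- restriction to J
    set r : ℝ := Real.sqrt (J.card : ℝ) / Real.sqrt (J'.card : ℝ) with hr
    have hsJ : 0 < Real.sqrt (J.card : ℝ) := Real.sqrt_pos.2 hcJ
    have hsJ' : 0 < Real.sqrt (J'.card : ℝ) := Real.sqrt_pos.2 (by rw [hcJ']; linarith)
    have hr0 : 0 < r := div_pos hsJ hsJ'
    have hr7 : 7 / 10 ≤ r := by
      rw [hr, le_div_iff₀ hsJ']
      have e1 : Real.sqrt (J'.card : ℝ) ≤ Real.sqrt ((10 / 7) ^ 2 * (J.card : ℝ)) := by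
        apply Real.sqrt_le_sqrt
        rw [hcJ']
        nlinarith
      rw [Real.sqrt_mul (by positivity), Real.sqrt_sq (by positivity)] at e1
      linarith
    have hr1 : r ≤ 1 := by
      rw [hr, div_le_one hsJ']
      apply Real.sqrt_le_sqrt
      rw [hcJ']; linarith
    have hres : dg (fun i => ((if i ∈ J then (1 : ℝ) else 0 : ℝ) : ℂ)) (flat J') =
        (r : ℂ) • flat J := by
      ext i
      rw [F1_dg_apply, PiLp.smul_apply, F3_flat_apply, F3_flat_apply, smul_eq_mul]
      by_cases hi : i ∈ J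
      · have hi' : i ∈ J' := by rw [hJ']; exact Finset.mem_cons_of_mem hi
        simp only [hi, hi', if_true]
        rw [← Complex.ofReal_mul, ← Complex.ofReal_mul]
        congr 1
        rw [hr]
        field_simp
      · simp [hi]
    have hnJ := F3_norm_flat J hJ
    have hnJ' := F3_norm_flat J' ⟨j, hjJ'⟩
    have h2 := h.real_diag hτ0 hτ (fun i => if i ∈ J then (1 : ℝ) else 0)
      (fun i => by split_ifs <;> simp) (flat J') hnJ'.le
    rw [hres] at h2
    have h3 := F3_norm_dg1 J (Y (flat J') - lam • flat J')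
    rw [map_sub, map_smul, hres] at h3
    have h4 := F3_smul h (r : ℂ) (by rw [Complex.norm_real, Real.norm_of_nonneg hr0.le]; exact hr1)
      (flat J) hnJ.le
    have h5 : ‖(r : ℂ) • (Y (flat J) - flat J)‖ ≤ r * (18000 * τ) := by
      rw [norm_smul, Complex.norm_real, Real.norm_of_nonneg hr0.le]
      gcongr
    have e1 : ((lam - 1) * (r : ℂ)) • flat J =
        -(dg (fun i => ((if i ∈ J then (1 : ℝ) else 0 : ℝ) : ℂ)) (Y (flat J')) -
          lam • (r : ℂ) • flat J) +
        -(Y ((r : ℂ) • flat J) -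
          dg (fun i => ((if i ∈ J then (1 : ℝ) else 0 : ℝ) : ℂ)) (Y (flat J'))) +
        ((Y ((r : ℂ) • flat J) - (r : ℂ) • Y (flat J)) + (r : ℂ) • (Y (flat J) - flat J)) := by
      module
    have h6 : ‖(lam - 1) * (r : ℂ)‖ * ‖flat J‖ ≤ 2504 * τ + 3 * τ + (τ + r * (18000 * τ)) := by
      rw [← norm_smul, e1]
      refine (norm_add₃_le ..).trans ?_
      rw [norm_neg, norm_neg]
      gcongr
      · exact h3.trans h1
      · exact (norm_add_le _ _).trans (add_le_add h4 h5)
    rw [hnJ, mul_one, norm_mul, Complex.norm_real, Real.norm_of_nonneg hr0.le] at h6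
    have h7 : ‖lam - 1‖ ≤ 1 / 2 := by
      have : ‖lam - 1‖ * r ≤ (1 / 2) * r := by
        have : τ * r ≤ 1 / 10 ^ 6 * r := by gcongr
        nlinarith
      exact le_of_mul_le_mul_right this hr0
    have h8 := F3_near_one hτ0 hlam2 h7
    have e2 : Y (flat J') - flat J' = (Y (flat J') - lam • flat J') + (lam - 1) • flat J' := by
      module
    rw [e2]
    refine (norm_add_le _ _).trans ?_
    rw [norm_smul, hnJ', mul_one]
    linarith

/-- `S U` is near `U` for block Fourier matrices. -/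
theorem F3_block_near (h : Core τ Y S) (hτ0 : 0 ≤ τ) (hτ : τ ≤ 1 / 10 ^ 6) (blk : I → I)
    (hb : ∀ i, blk (blk i) = blk i) :
    ∃ U : En I →L[ℂ] En I, star U * U = 1 ∧
      (∀ k, blk k = k → U (EuclideanSpace.single k 1) = flat (univ.filter fun i => blk i = k)) ∧
        ‖S U - U‖ ≤ 23100 * τ := by
  obtain ⟨U, hU, hU2, l, hl1, hl2⟩ := F3_block h hτ0 hτ blk hb
  refine ⟨U, hU.1, hU2, ?_⟩
  have hUn : ‖U‖ ≤ 1 := ContinuousLinearMap.opNorm_le_bound _ zero_le_one fun x => by
    rw [F3_unit_norm hU.1, one_mul]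
  have hlb : ∀ k, blk k = k → ‖l k - 1‖ ≤ 20504 * τ := by
    intro k hk
    have hne : (univ.filter fun i => blk i = k).Nonempty := ⟨k, by simp [hk]⟩
    have h1 := F3_blk_flat h hτ0 hτ hU.1 hU2 hl2 k hk
    have h2 := h.flat_near hτ0 hτ _ hne
    have h3 := F3_norm_flat _ hne
    have e1 : (l k - 1) • flat (univ.filter fun i => blk i = k) =
        (Y (flat (univ.filter fun i => blk i = k)) - flat (univ.filter fun i => blk i = k)) -
        (Y (flat (univ.filter fun i => blk i = k)) - l k • flat (univ.filter fun i => blk i = k)) := by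
      module
    calc ‖l k - 1‖ = ‖(l k - 1) • flat (univ.filter fun i => blk i = k)‖ := by
          rw [norm_smul, h3, mul_one]
      _ ≤ _ := by rw [e1]; exact norm_sub_le _ _
      _ ≤ 18000 * τ + 2504 * τ := add_le_add h2 h1
      _ = _ := by ring
  have e1 : S U - U = (S U - U * dg (fun i => l (blk i))) + U * dg (fun i => l (blk i) - 1) := by
    have : dg (fun i => l (blk i) - 1) = dg (fun i => l (blk i)) - (1 : En I →L[ℂ] En I) := by
      ext x i
      rw [F1_dg_apply, ContinuousLinearMap.sub_apply, PiLp.sub_apply, F1_dg_apply]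
      simp only [ContinuousLinearMap.one_apply]
      ring
    rw [this, mul_sub, mul_one]
    abel
  rw [e1]
  calc _ ≤ ‖S U - U * dg (fun i => l (blk i))‖ + ‖U * dg (fun i => l (blk i) - 1)‖ := norm_add_le _ _
    _ ≤ 2500 * τ + 1 * (20504 * τ) := by
        gcongr
        refine (norm_mul_le _ _).trans ?_
        gcongr
        exact F1_norm_dg _ _ (by positivity) fun i => hlb _ (hb i)
    _ ≤ _ := by linarith

/-- F8 -/
theorem F3_z (h : Core τ Y S) (hτ0 : 0 ≤ τ) (hτ : τ ≤ 1 / 10 ^ 6) (blk : I → I)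
    (hb : ∀ i, blk (blk i) = blk i) (K0 : Finset I) (hK0 : ∀ k ∈ K0, blk k = k)
    (hne : K0.Nonempty) (z : En I)
    (hz : ∀ i, z i = if i ∈ K0 then ((Real.sqrt ((univ.filter fun j => blk j = i).card : ℝ) /
      Real.sqrt ((univ.filter fun j => blk j ∈ K0).card : ℝ) : ℝ) : ℂ) else 0) :
    ‖z‖ ≤ 1 ∧ ‖Y z - z‖ ≤ 65000 * τ := by
  obtain ⟨U, hU, hU2, hSU⟩ := F3_block_near h hτ0 hτ blk hb
  have hUn : ‖U‖ ≤ 1 := ContinuousLinearMap.opNorm_le_bound _ zero_le_one fun x => by
    rw [F3_unit_norm hU, one_mul]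
  set A : Finset I := univ.filter fun j => blk j ∈ K0 with hA
  have hAne : A.Nonempty := by
    obtain ⟨k, hk⟩ := hne
    exact ⟨k, by simp [hA, hK0 k hk, hk]⟩
  have hz2 : z = ∑ k ∈ K0, ((Real.sqrt ((univ.filter fun j => blk j = k).card : ℝ) /
      Real.sqrt (A.card : ℝ) : ℝ) : ℂ) • (EuclideanSpace.single k (1 : ℂ) : En I) := by
    ext i
    rw [hz, WithLp.ofLp_sum, Finset.sum_apply]
    simp only [PiLp.smul_apply, F3_single_apply, smul_eq_mul, mul_ite, mul_one, mul_zero]
    rw [Finset.sum_ite_eq]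
  have hUz : U z = flat A := by
    rw [hz2, map_sum]
    have : ∀ k ∈ K0, U (((Real.sqrt ((univ.filter fun j => blk j = k).card : ℝ) /
      Real.sqrt (A.card : ℝ) : ℝ) : ℂ) • (EuclideanSpace.single k (1 : ℂ) : En I)) =
        ((Real.sqrt ((univ.filter fun j => blk j = k).card : ℝ) /
      Real.sqrt (A.card : ℝ) : ℝ) : ℂ) • flat (univ.filter fun i => blk i = k) := by
      intro k hk
      rw [map_smul, hU2 k (hK0 k hk)]
    rw [Finset.sum_congr rfl this]
    ext i
    rw [WithLp.ofLp_sum, Finset.sum_apply, F3_flat_apply]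
    simp only [PiLp.smul_apply, F3_flat_apply, smul_eq_mul, Finset.mem_filter, Finset.mem_univ,
      true_and, mul_ite, mul_zero]
    rw [Finset.sum_ite_eq]
    have e1 : (i ∈ A) ↔ blk i ∈ K0 := by simp [hA]
    simp only [e1]
    split_ifs with hi
    · rw [← Complex.ofReal_mul]
      congr 1
      have : (0 : ℝ) < ((univ.filter fun j => blk j = blk i).card : ℝ) := by
        exact_mod_cast Finset.card_pos.2 ⟨i, by simp⟩
      have h2 : 0 < Real.sqrt ((univ.filter fun j => blk j = blk i).card : ℝ) := Real.sqrt_pos.2 this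
      field_simp
    · rfl
  have hzn : ‖z‖ = 1 := by
    rw [← F3_unit_norm hU, hUz, F3_norm_flat A hAne]
  refine ⟨hzn.le, ?_⟩
  have h1 : ‖(S U - U) (Y z)‖ ≤ 23100 * τ * 2 :=
    (ContinuousLinearMap.le_opNorm _ _).trans (by gcongr; exact h.bd z hzn.le)
  have h2 := h.op U hUn z hzn.le
  have h3 := h.flat_near hτ0 hτ A hAne
  rw [← hUz] at h3
  have e1 : U (Y z - z) = -((S U - U) (Y z)) + (S U (Y z) - Y (U z)) + (Y (U z) - U z) := by
    rw [map_sub, ContinuousLinearMap.sub_apply]
    abel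
  rw [← F3_unit_norm hU, e1]
  refine (norm_add₃_le ..).trans ?_
  rw [norm_neg]
  linarith

/-- a system of disjoint blocks with prescribed sizes. -/
theorem F3_exists_blk (K0 : Finset I) (n : I → ℕ) (hn : ∀ k ∈ K0, 1 ≤ n k)
    (hN : ∑ k ∈ K0, n k ≤ Fintype.card I) :
    ∃ blk : I → I, (∀ i, blk (blk i) = blk i) ∧ (∀ k ∈ K0, blk k = k) ∧
      ∀ k ∈ K0, (univ.filter fun i => blk i = k).card = n k := by
  classical
  -- an injection of the additional points
  let D : Type u := Σ k : K0, Fin (n k.1 - 1)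
  have hcard : Fintype.card D ≤ Fintype.card {i : I // i ∉ K0} := by
    have e1 : Fintype.card D = ∑ k ∈ K0, (n k - 1) := by
      rw [Fintype.card_sigma]
      simp only [Fintype.card_fin]
      exact Finset.sum_coe_sort K0 (fun k => n k - 1)
    have e2 : Fintype.card {i : I // i ∉ K0} = Fintype.card I - K0.card := by
      rw [Fintype.card_subtype_compl, Fintype.card_coe]
    have e3 : ∑ k ∈ K0, (n k - 1) + K0.card = ∑ k ∈ K0, n k := by
      rw [Finset.card_eq_sum_ones, ← Finset.sum_add_distrib]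
      refine Finset.sum_congr rfl fun k hk => ?_
      have := hn k hk
      omega
    rw [e1, e2]
    omega
  obtain ⟨φ⟩ := Function.Embedding.nonempty_of_card_le hcard
  let blk : I → I := fun i => if h : ∃ d : D, (φ d).1 = i then (h.choose).1.1 else i
  have hblk1 : ∀ d : D, blk (φ d).1 = d.1.1 := by
    intro d
    have hex : ∃ d' : D, (φ d').1 = (φ d).1 := ⟨d, rfl⟩
    have : hex.choose = d := φ.injective (Subtype.ext hex.choose_spec)
    simp only [blk]
    rw [dif_pos hex, this]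
  have hblk2 : ∀ k ∈ K0, blk k = k := by
    intro k hk
    have : ¬ ∃ d : D, (φ d).1 = k := by
      rintro ⟨d, hd⟩
      exact (φ d).2 (hd ▸ hk)
    simp only [blk]
    rw [dif_neg this]
  have hblk3 : ∀ i, (¬ ∃ d : D, (φ d).1 = i) → blk i = i := by
    intro i hi
    simp only [blk]
    rw [dif_neg hi]
  refine ⟨blk, ?_, hblk2, ?_⟩
  · intro i
    by_cases hi : ∃ d : D, (φ d).1 = i
    · obtain ⟨d, rfl⟩ := hi
      rw [hblk1]
      exact hblk2 _ d.1.2
    · rw [hblk3 i hi, hblk3 i hi]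
  · intro k hk
    have hset : (univ.filter fun i => blk i = k) =
        insert k ((univ : Finset (Fin (n k - 1))).image fun a => (φ ⟨⟨k, hk⟩, a⟩).1) := by
      ext i
      simp only [Finset.mem_filter, Finset.mem_univ, true_and, Finset.mem_insert, Finset.mem_image]
      constructor
      · intro h0
        by_cases hi : ∃ d : D, (φ d).1 = i
        · obtain ⟨⟨⟨k', hk'⟩, a⟩, rfl⟩ := hi
          rw [hblk1] at h0
          right
          have h0' : k' = k := h0
          subst h0'
          exact ⟨a, rfl⟩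
        · left
          rw [← hblk3 i hi]; exact h0
      · rintro (h0 | ⟨a, rfl⟩)
        · rw [h0]; exact hblk2 k hk
        · rw [hblk1]
    rw [hset, Finset.card_insert_of_notMem, Finset.card_image_of_injective, Finset.card_univ,
      Fintype.card_fin]
    · have := hn k hk
      change (n k - 1) + 1 = n k
      omega
    · intro a b hab
      have h1 : (⟨⟨k, hk⟩, a⟩ : D) = ⟨⟨k, hk⟩, b⟩ := φ.injective (Subtype.ext hab)
      simpa using h1
    · simp only [Finset.mem_image, Finset.mem_univ, true_and, not_exists]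
      intro a ha
      have h1 := (φ ⟨⟨k, hk⟩, a⟩).2
      rw [ha] at h1
      exact h1 hk

/-- F9: vectors of small support. -/
theorem F3_small (h : Core τ Y S) (hτ0 : 0 ≤ τ) (hτ : τ ≤ 1 / 10 ^ 6) (x : En I) (hx : ‖x‖ ≤ 1)
    (hI : 2 ≤ Fintype.card I)
    (hs : (univ.filter fun i => x i ≠ 0).card ≤ Fintype.card I - Fintype.card I / 2) :
    ‖Y x - x‖ ≤ 130030 * τ := by
  classical
  set K0 : Finset I := univ.filter fun i => x i ≠ 0 with hK0
  by_cases hne : K0.Nonempty
  swap
  · have hx0 : x = 0 := by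
      ext i
      by_contra hi
      exact hne ⟨i, by simpa [hK0] using hi⟩
    have h1 := F3_smul h 0 (by simp) x hx
    rw [zero_smul, zero_smul, sub_zero] at h1
    rw [hx0, sub_zero]
    linarith
  set M : ℕ := Fintype.card I / 2 with hM
  set n : I → ℕ := fun k => max 1 ⌈‖x k‖ ^ 2 * M⌉₊ with hn
  have hxsum : ∑ k ∈ K0, ‖x k‖ ^ 2 ≤ 1 := by
    calc ∑ k ∈ K0, ‖x k‖ ^ 2 ≤ ∑ k, ‖x k‖ ^ 2 :=
          Finset.sum_le_sum_of_subset_of_nonneg (Finset.subset_univ _) (fun i _ _ => by positivity)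
      _ = ‖x‖ ^ 2 := (EuclideanSpace.norm_sq_eq x).symm
      _ ≤ 1 := by nlinarith [norm_nonneg x]
  have hnup : ∀ k, (n k : ℝ) ≤ ‖x k‖ ^ 2 * M + 1 := by
    intro k
    simp only [hn]
    rw [Nat.cast_max]
    apply max_le
    · have : 0 ≤ ‖x k‖ ^ 2 * (M : ℝ) := by positivity
      push_cast; linarith
    · exact (Nat.ceil_lt_add_one (by positivity)).le
  have hN : ∑ k ∈ K0, n k ≤ Fintype.card I := by
    have h1 : ((∑ k ∈ K0, n k : ℕ) : ℝ) ≤ M + K0.card := by
      push_cast
      calc ∑ k ∈ K0, (n k : ℝ) ≤ ∑ k ∈ K0, (‖x k‖ ^ 2 * M + 1) := Finset.sum_le_sum fun k _ => hnup k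
        _ = (∑ k ∈ K0, ‖x k‖ ^ 2) * M + K0.card := by
            rw [Finset.sum_add_distrib, ← Finset.sum_mul]; simp
        _ ≤ 1 * M + K0.card := by gcongr
        _ = _ := by ring
    have h2 : ∑ k ∈ K0, n k ≤ M + K0.card := by exact_mod_cast h1
    omega
  obtain ⟨blk, hb1, hb2, hb3⟩ := F3_exists_blk K0 n (fun k _ => le_max_left _ _) hN
  have hAcard : (univ.filter fun j => blk j ∈ K0).card = ∑ k ∈ K0, n k := by
    have e1 : (univ.filter fun j => blk j ∈ K0) = K0.biUnion fun k => univ.filter fun j => blk j = k := by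
      ext j
      simp
    rw [e1, Finset.card_biUnion]
    · exact Finset.sum_congr rfl hb3
    · intro a _ b _ hab
      rw [Function.onFun, Finset.disjoint_left]
      intro j hj1 hj2
      simp only [Finset.mem_filter, Finset.mem_univ, true_and] at hj1 hj2
      exact hab (hj1.symm.trans hj2)
  set zf : I → ℂ := fun i => if i ∈ K0 then ((Real.sqrt ((univ.filter fun j => blk j = i).card : ℝ) /
      Real.sqrt ((univ.filter fun j => blk j ∈ K0).card : ℝ) : ℝ) : ℂ) else 0 with hzf
  set z : En I := WithLp.toLp 2 zf with hzdef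
  obtain ⟨hz1, hz2⟩ := F3_z h hτ0 hτ blk hb1 K0 hb2 hne z (fun i => rfl)
  -- comparison
  set N : ℕ := ∑ k ∈ K0, n k with hNdef
  have hNpos : 0 < N := by
    rw [← hAcard]
    obtain ⟨k, hk⟩ := hne
    exact Finset.card_pos.2 ⟨k, by simp [hb2 k hk, hk]⟩
  have hzk : ∀ k ∈ K0, z k = ((Real.sqrt (n k) / Real.sqrt N : ℝ) : ℂ) := by
    intro k hk
    change zf k = _
    simp only [hzf]
    rw [if_pos hk, hb3 k hk, hAcard]
  have hzlow : ∀ k ∈ K0, ‖x k‖ / 2 ≤ Real.sqrt (n k) / Real.sqrt N := by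
    intro k hk
    rw [← Real.sqrt_div (by positivity)]
    apply Real.le_sqrt_of_sq_le
    rw [le_div_iff₀ (by exact_mod_cast hNpos)]
    have h1 : ‖x k‖ ^ 2 * M ≤ n k := by
      simp only [hn]
      rw [Nat.cast_max]
      exact (Nat.le_ceil _).trans (le_max_right _ _)
    have h2 : (N : ℝ) ≤ 4 * M := by
      have : N ≤ 4 * M := by omega
      exact_mod_cast this
    have h3 : 0 ≤ ‖x k‖ ^ 2 := by positivity
    nlinarith
  set d : I → ℂ := fun i => if i ∈ K0 then x i / (2 * z i) else 0 with hd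
  have hzpos : ∀ k ∈ K0, 0 < Real.sqrt (n k) / Real.sqrt N := by
    intro k hk
    have : 1 ≤ n k := le_max_left _ _
    have h1 : 0 < Real.sqrt (n k) := Real.sqrt_pos.2 (by exact_mod_cast this)
    have h2 : 0 < Real.sqrt (N : ℝ) := Real.sqrt_pos.2 (by exact_mod_cast hNpos)
    positivity
  have hd1 : ∀ i, ‖d i‖ ≤ 1 := by
    intro i
    simp only [hd]
    split_ifs with hi
    · rw [norm_div, norm_mul, hzk i hi, Complex.norm_real, Real.norm_of_nonneg (hzpos i hi).le]
      simp only [Complex.norm_ofNat]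
      rw [div_le_one (by have := hzpos i hi; positivity)]
      have := hzlow i hi
      linarith
    · simp
  have hdz : dg d z = (1 / 2 : ℂ) • x := by
    ext i
    rw [F1_dg_apply, PiLp.smul_apply, smul_eq_mul]
    simp only [hd]
    split_ifs with hi
    · have : z i ≠ 0 := by
        rw [hzk i hi]
        exact Complex.ofReal_ne_zero.2 (hzpos i hi).ne'
      field_simp
    · have : x i = 0 := by
        by_contra h0
        exact hi (by simpa [hK0] using h0)
      rw [this]; simp
  have h1 := h.diag hτ0 hτ d hd1 z hz1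
  have h2 : ‖dg d (Y z - z)‖ ≤ 65000 * τ := by
    have := F1_norm_dg_apply d 1 zero_le_one hd1 (Y z - z)
    linarith
  have h3 := F3_smul h (1 / 2 : ℂ) (by norm_num) x hx
  rw [hdz] at h1
  rw [map_sub, hdz] at h2
  have e1 : Y x - x = (2 : ℂ) • (-(Y ((1 / 2 : ℂ) • x) - (1 / 2 : ℂ) • Y x) +
      (Y ((1 / 2 : ℂ) • x) - dg d (Y z)) + (dg d (Y z) - (1 / 2 : ℂ) • x)) := by
    module
  rw [e1, norm_smul]
  simp only [Complex.norm_ofNat]
  have h4 := norm_add₃_le (a := -(Y ((1 / 2 : ℂ) • x) - (1 / 2 : ℂ) • Y x))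
    (b := (Y ((1 / 2 : ℂ) • x) - dg d (Y z))) (c := (dg d (Y z) - (1 / 2 : ℂ) • x))
  rw [norm_neg] at h4
  linarith

theorem core (h : Core τ Y S) (hτ : τ ≤ 1 / 10 ^ 6) :
    ∀ x, ‖x‖ ≤ 1 → ‖Y x - x‖ ≤ 10 ^ 6 * τ := by
  classical
  have hτ0 : 0 ≤ τ := (norm_nonneg _).trans (F3_smul h 0 (by simp) 0 (by simp))
  intro x hx
  rcases Nat.lt_or_ge (Fintype.card I) 2 with hI | hI
  · -- at most one coordinate
    rcases isEmpty_or_nonempty I with hE | ⟨⟨i0⟩⟩
    · have : Y x - x = 0 := by
        ext i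
        exact (IsEmpty.false i).elim
      rw [this, norm_zero]; positivity
    · have hsub : ∀ i, i = i0 := by
        haveI : Subsingleton I := Fintype.card_le_one_iff_subsingleton.1 (by omega)
        intro i; exact Subsingleton.elim _ _
      have hx1 : x = x i0 • EuclideanSpace.single i0 (1 : ℂ) := by
        ext i
        rw [hsub i, PiLp.smul_apply, F3_single_apply, smul_eq_mul]
        simp
      have hxi : ‖x i0‖ ≤ 1 := by
        calc ‖x i0‖ ≤ ‖x‖ := PiLp.norm_apply_le x i0 
          _ ≤ 1 := hx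
      have h1 := F3_smul h (x i0) hxi (EuclideanSpace.single i0 (1 : ℂ)) (by simp)
      have h2 := h.base i0
      rw [← hx1] at h1
      have e1 : Y x - x = (Y x - x i0 • Y (EuclideanSpace.single i0 (1 : ℂ))) +
          x i0 • (Y (EuclideanSpace.single i0 (1 : ℂ)) - EuclideanSpace.single i0 (1 : ℂ)) := by
        conv_lhs => rw [show Y x - x = Y x - x i0 • EuclideanSpace.single i0 (1 : ℂ) by rw [← hx1]]
        module
      rw [e1]
      refine (norm_add_le _ _).trans ?_
      rw [norm_smul]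
      have : ‖x i0‖ * ‖Y (EuclideanSpace.single i0 (1 : ℂ)) - EuclideanSpace.single i0 (1 : ℂ)‖ ≤ 1 * τ := by
        gcongr
      linarith
  · obtain ⟨A, hA⟩ : ∃ A : Finset I, A.card = Fintype.card I / 2 := by
      obtain ⟨A, -, hA⟩ := Finset.exists_subset_card_eq (s := (univ : Finset I))
        (n := Fintype.card I / 2) (by rw [Finset.card_univ]; omega)
      exact ⟨A, hA⟩
    set x1 : En I := dg (fun i => ((if i ∈ A then (1 : ℝ) else 0 : ℝ) : ℂ)) x with hx1
    set x2 : En I := dg (fun i => ((if i ∈ Aᶜ then (1 : ℝ) else 0 : ℝ) : ℂ)) x with hx2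
    have n1 : ‖x1‖ ≤ 1 := (F3_norm_dg1 A x).trans hx
    have n2 : ‖x2‖ ≤ 1 := (F3_norm_dg1 Aᶜ x).trans hx
    have hsum : (1 : ℂ) • x1 + (1 : ℂ) • x2 = x := by
      ext i
      rw [one_smul, one_smul, PiLp.add_apply, hx1, hx2, F1_dg_apply, F1_dg_apply]
      by_cases hi : i ∈ A <;> simp [hi]
    have s1 : (univ.filter fun i => x1 i ≠ 0).card ≤ Fintype.card I - Fintype.card I / 2 := by
      have : (univ.filter fun i => x1 i ≠ 0) ⊆ A := by
        intro i hi
        simp only [Finset.mem_filter, Finset.mem_univ, true_and, hx1, F1_dg_apply] at hi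
        by_contra h0
        simp [h0] at hi
      have := Finset.card_le_card this
      omega
    have s2 : (univ.filter fun i => x2 i ≠ 0).card ≤ Fintype.card I - Fintype.card I / 2 := by
      have : (univ.filter fun i => x2 i ≠ 0) ⊆ Aᶜ := by
        intro i hi
        simp only [Finset.mem_filter, Finset.mem_univ, true_and, hx2, F1_dg_apply] at hi
        by_contra h0
        simp only [h0, if_false] at hi
        simp at hi
      have h3 := Finset.card_le_card this
      rw [Finset.card_compl, hA] at h3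
      exact h3
    have h1 := F3_small h hτ0 hτ x1 n1 hI s1
    have h2 := F3_small h hτ0 hτ x2 n2 hI s2
    have h3 := h.add x1 x2 1 1 n1 n2 (by simp) (by simp) (by rw [hsum]; exact hx)
    rw [hsum, one_smul, one_smul] at h3
    have e1 : Y x - x = (Y x - (Y x1 + Y x2)) + (Y x1 - x1) + (Y x2 - x2) := by
      have : x = x1 + x2 := by rw [← hsum, one_smul, one_smul]
      conv_lhs => rw [show Y x - x = Y x - (x1 + x2) by rw [← this]]
      abel
    rw [e1]
    refine (norm_add₃_le ..).trans ?_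
    linarith

end F

end Pool.Agent.helper32.CK
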