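import Pool.Agent.helper32.CK.Defs

/-! # MP_25dcdb_an: polar and projection lemmas -/

namespace Pool.Agent.helper32.CK

open scoped InnerProductSpace ComplexOrder
open Filter Topology

universe u v w

theorem P_spec_bound {C : Type u} [CStarAlgebra C] (E : C) (hE : IsSelfAdjoint E) (κ : ℝ)
    (h : ‖E * E - E‖ ≤ κ) : ∀ t ∈ spectrum ℝ E, |t ^ 2 - t| ≤ κ := by
  intro t ht
  have h1 : cfc (fun t : ℝ => t ^ 2 - t) E = E * E - E := by
    rw [cfc_sub (fun t : ℝ => t ^ 2) (fun t : ℝ => t) E, cfc_pow (fun t : ℝ => t) 2 E, cfc_id' ℝ E]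
    rw [pow_two]
  have h2 := norm_apply_le_norm_cfc (fun t : ℝ => t ^ 2 - t) E ht
  rw [h1] at h2
  exact h2.trans h

theorem exists_proj_near {C : Type u} [CStarAlgebra C] (E : C) (hE : IsSelfAdjoint E) (κ : ℝ)
    (hκ : κ < 1 / 4) (h : ‖E * E - E‖ ≤ κ) :
    ∃ P : C, IsStarProjection P ∧ ‖P - E‖ ≤ 2 * κ ∧ ∀ T, Commute E T → Commute P T := by
  have hs := P_spec_bound E hE κ h
  have hκ0 : 0 ≤ κ := (norm_nonneg _).trans h
  set χ : ℝ → ℝ := fun t => if 1 / 2 < t then 1 else 0 with hχ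
  have hne : ∀ t ∈ spectrum ℝ E, t ≠ 1 / 2 := by
    intro t ht h0
    have := hs t ht
    rw [h0] at this
    norm_num at this
    linarith
  have hc : ContinuousOn χ (spectrum ℝ E) := by
    intro t ht
    apply ContinuousAt.continuousWithinAt
    rcases lt_or_gt_of_ne (hne t ht) with h1 | h1
    · have : χ =ᶠ[𝓝 t] fun _ => 0 := by
        filter_upwards [Iio_mem_nhds h1] with s hs
        simp only [hχ]
        rw [if_neg (not_lt.2 (le_of_lt hs))]
      exact (continuousAt_const).congr this.symm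
    · have : χ =ᶠ[𝓝 t] fun _ => 1 := by
        filter_upwards [Ioi_mem_nhds h1] with s hs
        simp only [hχ]
        rw [if_pos (show (1:ℝ) / 2 < s from hs)]
      exact (continuousAt_const).congr this.symm
  refine ⟨cfc χ E, ⟨?_, ?_⟩, ?_, ?_⟩
  · change cfc χ E * cfc χ E = cfc χ E
    rw [← cfc_mul χ χ E hc hc]
    congr 1
    funext t
    simp only [hχ]
    split_ifs <;> simp
  · exact cfc_predicate χ E
  · have h1 : cfc χ E - E = cfc (fun t => χ t - t) E := by
      rw [cfc_sub χ (fun t : ℝ => t) E hc continuousOn_id, cfc_id' ℝ E]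
    rw [h1]
    apply norm_cfc_le (by positivity)
    intro t ht
    have h2 := hs t ht
    have h3 := hne t ht
    rw [abs_le] at h2
    rw [Real.norm_eq_abs]
    simp only [hχ]
    rw [abs_le]
    split_ifs with h4
    · constructor <;> nlinarith
    · have h5 : t < 1 / 2 := lt_of_le_of_ne (not_lt.1 h4) h3
      constructor <;> nlinarith
  · intro T hT
    exact hT.cfc_real χ

theorem exists_isometry_near {H : Type u} {H' : Type v} [NormedAddCommGroup H]
    [InnerProductSpace ℂ H] [CompleteSpace H] [NormedAddCommGroup H'] [InnerProductSpace ℂ H']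
    [CompleteSpace H'] (T : H →L[ℂ] H') (κ : ℝ) (hκ : κ ≤ 1 / 2)
    (h : ‖(ContinuousLinearMap.adjoint T) ∘L T - 1‖ ≤ κ) :
    ∃ U : H →ₗᵢ[ℂ] H', (∀ x, ‖U x - T x‖ ≤ 2 * κ * ‖x‖) ∧ (∀ x, ∃ y, U x = T y) ∧
      ∀ x, ∃ y, T x = U y := by
  have hκ0 : 0 ≤ κ := (norm_nonneg _).trans h
  set A : H →L[ℂ] H := (ContinuousLinearMap.adjoint T) ∘L T with hA
  have hAs : IsSelfAdjoint A := by
    rw [hA]
    change star (ContinuousLinearMap.adjoint T ∘L T) = _
    rw [ContinuousLinearMap.star_eq_adjoint, ContinuousLinearMap.adjoint_comp,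
      ContinuousLinearMap.adjoint_adjoint]
  have hspec : ∀ t ∈ spectrum ℝ A, |t - 1| ≤ κ := by
    intro t ht
    have h1 : cfc (fun t : ℝ => t - 1) A = A - 1 := by
      rw [cfc_sub (fun t : ℝ => t) (fun _ : ℝ => (1 : ℝ)) A, cfc_id' ℝ A, cfc_const_one ℝ A]
    have h2 := norm_apply_le_norm_cfc (fun t : ℝ => t - 1) A ht
    rw [h1] at h2
    exact h2.trans h
  have hpos : ∀ t ∈ spectrum ℝ A, 1 / 2 ≤ t := by
    intro t ht
    have := hspec t ht
    rw [abs_le] at this
    linarith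
  set R : H →L[ℂ] H := cfc Real.sqrt A with hR
  have hcR : ContinuousOn Real.sqrt (spectrum ℝ A) := Real.continuous_sqrt.continuousOn
  have hcS : ContinuousOn (fun t : ℝ => (Real.sqrt t)⁻¹) (spectrum ℝ A) := by
    apply ContinuousOn.inv₀ hcR
    intro t ht
    have := hpos t ht
    have : 0 < Real.sqrt t := Real.sqrt_pos.2 (by linarith)
    exact this.ne'
  set S : H →L[ℂ] H := cfc (fun t : ℝ => (Real.sqrt t)⁻¹) A with hS
  have hRR : R * R = A := by
    rw [hR, ← cfc_mul _ _ A hcR hcR]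
    conv_rhs => rw [← cfc_id' ℝ A]
    apply cfc_congr
    intro t ht
    have := hpos t ht
    exact Real.mul_self_sqrt (by linarith)
  have hSR : S * R = 1 := by
    rw [hS, hR, ← cfc_mul _ _ A hcS hcR]
    rw [← cfc_const_one ℝ A]
    apply cfc_congr
    intro t ht
    have := hpos t ht
    have : 0 < Real.sqrt t := Real.sqrt_pos.2 (by linarith)
    simp only
    field_simp
  have hRS : R * S = 1 := by
    rw [hS, hR, ← cfc_mul _ _ A hcR hcS]
    rw [← cfc_const_one ℝ A]
    apply cfc_congr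
    intro t ht
    have := hpos t ht
    have : 0 < Real.sqrt t := Real.sqrt_pos.2 (by linarith)
    simp only
    field_simp
  have hRs : IsSelfAdjoint R := cfc_predicate _ A
  have hnorm : ∀ y, ‖T y‖ = ‖R y‖ := by
    intro y
    have h1 : ‖T y‖ ^ 2 = ‖R y‖ ^ 2 := by
      have e1 : (⟪T y, T y⟫_ℂ) = ⟪R y, R y⟫_ℂ := by
        rw [← ContinuousLinearMap.adjoint_inner_left T]
        have e2 : (ContinuousLinearMap.adjoint T) (T y) = A y := rfl
        rw [e2, ← hRR]
        have e3 : ContinuousLinearMap.adjoint R = R := by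
          rw [← ContinuousLinearMap.star_eq_adjoint]
          exact hRs
        conv_rhs => rw [← ContinuousLinearMap.adjoint_inner_left R, e3]
        rfl
      rw [inner_self_eq_norm_sq_to_K, inner_self_eq_norm_sq_to_K] at e1
      exact_mod_cast e1
    exact (pow_left_inj₀ (norm_nonneg _) (norm_nonneg _) two_ne_zero).1 h1
  refine ⟨⟨(T ∘L S : H →L[ℂ] H').toLinearMap, ?_⟩, ?_, ?_, ?_⟩
  · intro x
    change ‖T (S x)‖ = ‖x‖
    rw [hnorm]
    have : R (S x) = (R * S) x := rfl
    rw [this, hRS]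
    rfl
  · intro x
    change ‖T (S x) - T x‖ ≤ _
    rw [← map_sub, hnorm, map_sub]
    have e1 : R (S x) - R x = (1 - R) x := by
      have : R (S x) = (R * S) x := rfl
      rw [this, hRS]
      rfl
    rw [e1]
    have e2 : ‖(1 : H →L[ℂ] H) - R‖ ≤ 2 * κ := by
      have e3 : (1 : H →L[ℂ] H) - R = cfc (fun t : ℝ => 1 - Real.sqrt t) A := by
        rw [cfc_sub (fun _ : ℝ => (1 : ℝ)) Real.sqrt A continuousOn_const hcR, cfc_const_one ℝ A]
      rw [e3]
      apply norm_cfc_le (by positivity)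
      intro t ht
      have h1 := hspec t ht
      have h2 := hpos t ht
      have h3 : 0 ≤ Real.sqrt t := Real.sqrt_nonneg t
      have h4 : Real.sqrt t * Real.sqrt t = t := Real.mul_self_sqrt (by linarith)
      rw [abs_le] at h1
      rw [Real.norm_eq_abs, abs_le]
      constructor <;> nlinarith
    calc ‖(1 - R) x‖ ≤ ‖(1 : H →L[ℂ] H) - R‖ * ‖x‖ := ContinuousLinearMap.le_opNorm _ _
      _ ≤ 2 * κ * ‖x‖ := by gcongr
  · intro x
    exact ⟨S x, rfl⟩
  · intro x
    refine ⟨R x, ?_⟩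
    change T x = T (S (R x))
    have : S (R x) = (S * R) x := rfl
    rw [this, hSR]
    rfl

end Pool.Agent.helper32.CK
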