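import Pool.Agent.helper32.CK.Defs
import Pool.Agent.helper17.CK.P

/-! # MP_25dcdb_an: near representations of finite groups -/

namespace Pool.Agent.helper32.CK

open scoped InnerProductSpace ComplexOrder
open Filter Topology ContinuousLinearMap

universe u v w

section quad
variable {H : Type u} [NormedAddCommGroup H] [InnerProductSpace ℂ H] [CompleteSpace H]

theorem G_norm_le_of_quad (A : H →L[ℂ] H) (hA : adjoint A = A) (κ : ℝ) (hκ : 0 ≤ κ)
    (h : ∀ v, |(⟪v, A v⟫_ℂ).re| ≤ κ * ‖v‖ ^ 2) : ‖A‖ ≤ κ := by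
  refine ContinuousLinearMap.opNorm_le_bound _ hκ fun x => ?_
  by_cases hb : ‖A x‖ = 0
  · rw [hb]; positivity
  set a : ℝ := ‖x‖ with ha
  set b : ℝ := ‖A x‖ with hbdef
  have hbpos : 0 < b := lt_of_le_of_ne (norm_nonneg _) (Ne.symm hb)
  have hapos : 0 < a := by
    rw [ha]
    apply norm_pos_iff.2
    rintro rfl
    apply hb
    simp [hbdef]
  set p : H := (b : ℂ) • x with hp
  set q : H := (a : ℂ) • A x with hq
  have hpn : ‖p‖ = a * b := by
    rw [hp, norm_smul, Complex.norm_real, Real.norm_of_nonneg hbpos.le]; ring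
  have hqn : ‖q‖ = a * b := by
    rw [hq, norm_smul, Complex.norm_real, Real.norm_of_nonneg hapos.le]
  have h1 := h (p + q)
  have h2 := h (p - q)
  have hs : (⟪p, A q⟫_ℂ).re = (⟪q, A p⟫_ℂ).re := by
    rw [← adjoint_inner_left A, hA, ← inner_conj_symm, Complex.conj_re]
  have h3 : (⟪q, A p⟫_ℂ).re = a * b * b ^ 2 := by
    rw [hp, hq, map_smul, inner_smul_left, inner_smul_right, Complex.conj_ofReal,
      inner_self_eq_norm_sq_to_K]
    have : ((a : ℂ) * ((b : ℂ) * ((‖A x‖ : ℂ)) ^ 2)) = ((a * (b * b ^ 2) : ℝ) : ℂ) := by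
      push_cast
      rfl
    have e2 : ((a : ℂ) * ((b : ℂ) * (((‖A x‖ : ℝ) : ℂ)) ^ 2)).re = a * (b * b ^ 2) := by
      rw [this, Complex.ofReal_re]
    calc _ = a * (b * b ^ 2) := e2
      _ = _ := by ring
  have e1 : (⟪p + q, A (p + q)⟫_ℂ).re = (⟪p, A p⟫_ℂ).re + (⟪q, A q⟫_ℂ).re +
      2 * (⟪q, A p⟫_ℂ).re := by
    rw [map_add, inner_add_left, inner_add_right, inner_add_right]
    simp only [Complex.add_re]
    rw [hs]; ring
  have e2 : (⟪p - q, A (p - q)⟫_ℂ).re = (⟪p, A p⟫_ℂ).re + (⟪q, A q⟫_ℂ).re -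
      2 * (⟪q, A p⟫_ℂ).re := by
    rw [map_sub, inner_sub_left, inner_sub_right, inner_sub_right]
    simp only [Complex.sub_re]
    rw [hs]; ring
  have hpar : ‖p + q‖ ^ 2 + ‖p - q‖ ^ 2 = 2 * (‖p‖ ^ 2 + ‖q‖ ^ 2) := by
    have := parallelogram_law_with_norm ℂ p q
    nlinarith [this]
  have h4 := le_abs_self (⟪p + q, A (p + q)⟫_ℂ).re
  have h5 := neg_abs_le (⟪p - q, A (p - q)⟫_ℂ).re
  have h6 : 4 * (a * b * b ^ 2) ≤ κ * (‖p + q‖ ^ 2 + ‖p - q‖ ^ 2) := by
    rw [← h3]
    nlinarith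
  rw [hpar, hpn, hqn] at h6
  have h7 : (a * b * b) * b ≤ (a * b * b) * (κ * a) := by nlinarith
  exact le_of_mul_le_mul_left h7 (by positivity)

theorem G_lower (A B : H →L[ℂ] H) (t : ℝ) (ht0 : 0 ≤ t) (hAB : ‖A ∘L B - 1‖ ≤ 2 * t)
    (hA : ‖A‖ ≤ 1 + t) (v : H) : (1 - 3 * t) * ‖v‖ ≤ ‖B v‖ := by
  have h1 : ‖(A ∘L B - 1) v‖ ≤ 2 * t * ‖v‖ :=
    (ContinuousLinearMap.le_opNorm _ _).trans (by gcongr)
  have h2 : (A ∘L B - 1) v = A (B v) - v := rfl
  rw [h2] at h1
  have h3 : ‖v‖ - ‖A (B v)‖ ≤ ‖A (B v) - v‖ := by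
    rw [norm_sub_rev]; exact norm_sub_norm_le _ _
  have h4 : ‖A (B v)‖ ≤ (1 + t) * ‖B v‖ := (ContinuousLinearMap.le_opNorm _ _).trans (by gcongr)
  have h5 : (1 + t) * ((1 - 3 * t) * ‖v‖) ≤ (1 + t) * ‖B v‖ := by
    nlinarith [norm_nonneg v, mul_nonneg (mul_nonneg ht0 ht0) (norm_nonneg v)]
  exact le_of_mul_le_mul_left h5 (by positivity)

theorem G_adj_sub_one (T : H →L[ℂ] H) : adjoint (T ∘L adjoint T - 1) = T ∘L adjoint T - 1 := by
  rw [map_sub, adjoint_comp, adjoint_adjoint]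
  congr 1
  rw [← star_eq_adjoint, star_one]

end quad

section core
variable {G : Type w} [Group G] [Fintype G] {H : Type u} [NormedAddCommGroup H]
  [InnerProductSpace ℂ H] [CompleteSpace H] {K : Type v} [NormedAddCommGroup K]
  [InnerProductSpace ℂ K] [CompleteSpace K]

theorem G_core (r : G → (H →L[ℂ] H)) (t : ℝ) (ht0 : 0 ≤ t) (ht : t ≤ 1 / 1000)
    (h1 : ∀ g, ‖r g‖ ≤ 1 + t) (W : H →L[ℂ] K) (R : G → (K →L[ℂ] K)) (R1 : R 1 = 1)
    (Rm : ∀ g h, R (g * h) = R g ∘L R h) (Ra : ∀ g, adjoint (R g) = R g⁻¹)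
    (Rn : ∀ g, ‖R g‖ ≤ 1)
    (hW : ‖adjoint W ∘L W - 1‖ ≤ 6 * t) (hRW : ∀ g, ‖R g ∘L W - W ∘L r g‖ ≤ t)
    (hr : ∀ g, ‖r g ∘L adjoint (r g) - 1‖ ≤ 6 * t) :
    ∃ ρ : G →* unitary (H →L[ℂ] H), ∀ g, ‖(ρ g : H →L[ℂ] H) - r g‖ ≤ 1000 * t := by
  -- norm of W
  have hWn : ‖W‖ ≤ 1 + 3 * t := by
    have e1 : ‖W‖ * ‖W‖ ≤ 1 + 6 * t := by
      rw [← ContinuousLinearMap.norm_adjoint_comp_self]
      calc ‖adjoint W ∘L W‖ = ‖(adjoint W ∘L W - 1) + 1‖ := by rw [sub_add_cancel]
        _ ≤ ‖adjoint W ∘L W - 1‖ + ‖(1 : H →L[ℂ] H)‖ := norm_add_le _ _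
        _ ≤ 6 * t + 1 := add_le_add hW ContinuousLinearMap.norm_id_le
        _ = _ := by ring
    nlinarith [norm_nonneg W]
  have hWn' : ‖W‖ ≤ 1003 / 1000 := by linarith
  have hWa : ‖adjoint W‖ ≤ 1 + 3 * t := by
    rw [LinearIsometryEquiv.norm_map]; exact hWn
  have hWa' : ‖adjoint W‖ ≤ 1003 / 1000 := by linarith
  set E0 : K →L[ℂ] K := W ∘L adjoint W with hE0
  have hE0n : ‖E0‖ ≤ 1007 / 1000 := by
    calc ‖E0‖ ≤ ‖W‖ * ‖adjoint W‖ := ContinuousLinearMap.opNorm_comp_le _ _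
      _ ≤ 1003 / 1000 * (1003 / 1000) := by gcongr
      _ ≤ _ := by norm_num
  have hE0a : adjoint E0 = E0 := by
    rw [hE0, adjoint_comp, adjoint_adjoint]
  -- conjugates of E0
  set F : G → (K →L[ℂ] K) := fun g => R g ∘L E0 ∘L R g⁻¹ with hF
  have hFE : ∀ g, ‖F g - E0‖ ≤ 10 * t := by
    intro g
    set D := R g ∘L W - W ∘L r g with hD
    have hDn : ‖D‖ ≤ t := hRW g
    have hDa : ‖adjoint D‖ ≤ t := by rw [LinearIsometryEquiv.norm_map]; exact hDn
    have hra : ‖adjoint (r g)‖ ≤ 1 + t := by rw [LinearIsometryEquiv.norm_map]; exact h1 g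
    have e0 : R g ∘L W = D + W ∘L r g := by rw [hD, sub_add_cancel]
    have e1 : F g = (D + W ∘L r g) ∘L adjoint (D + W ∘L r g) := by
      rw [← e0, adjoint_comp, Ra]
      simp only [hF, hE0]
      rfl
    have e2 : F g - E0 = W ∘L (r g ∘L adjoint (r g) - 1) ∘L adjoint W +
        W ∘L r g ∘L adjoint D + D ∘L adjoint (r g) ∘L adjoint W + D ∘L adjoint D := by
      rw [e1, map_add, adjoint_comp]
      ext x
      simp only [hE0, ContinuousLinearMap.sub_apply, ContinuousLinearMap.add_apply,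
        ContinuousLinearMap.comp_apply, map_add, map_sub, ContinuousLinearMap.one_apply]
      abel
    rw [e2]
    have n1 : ‖W ∘L (r g ∘L adjoint (r g) - 1) ∘L adjoint W‖ ≤ 1003 / 1000 * (6 * t * (1003 / 1000)) := by
      refine (ContinuousLinearMap.opNorm_comp_le _ _).trans ?_
      gcongr
      refine (ContinuousLinearMap.opNorm_comp_le _ _).trans ?_
      gcongr
      exact hr g
    have n2 : ‖W ∘L r g ∘L adjoint D‖ ≤ 1003 / 1000 * ((1 + t) * t) := by
      refine (ContinuousLinearMap.opNorm_comp_le _ _).trans ?_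
      gcongr
      refine (ContinuousLinearMap.opNorm_comp_le _ _).trans ?_
      gcongr
      exact h1 g
    have n3 : ‖D ∘L adjoint (r g) ∘L adjoint W‖ ≤ t * ((1 + t) * (1003 / 1000)) := by
      refine (ContinuousLinearMap.opNorm_comp_le _ _).trans ?_
      gcongr
      refine (ContinuousLinearMap.opNorm_comp_le _ _).trans ?_
      gcongr
    have n4 : ‖D ∘L adjoint D‖ ≤ t * t := by
      refine (ContinuousLinearMap.opNorm_comp_le _ _).trans ?_
      gcongr
    calc _ ≤ ‖W ∘L (r g ∘L adjoint (r g) - 1) ∘L adjoint W‖ + ‖W ∘L r g ∘L adjoint D‖ +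
          ‖D ∘L adjoint (r g) ∘L adjoint W‖ + ‖D ∘L adjoint D‖ := by
            refine (norm_add_le _ _).trans ?_
            gcongr
            refine (norm_add_le _ _).trans ?_
            gcongr
            exact norm_add_le _ _
      _ ≤ 10 * t := by nlinarith
  have hFa : ∀ g, adjoint (F g) = F g := by
    intro g
    simp only [hF]
    rw [adjoint_comp, adjoint_comp, Ra, Ra, inv_inv, hE0a]
    rfl
  have hFconj : ∀ k g, R k ∘L F g = F (k * g) ∘L R k := by
    intro k g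
    simp only [hF]
    rw [mul_inv_rev, Rm, Rm]
    have e1 : R k⁻¹ ∘L R k = 1 := by rw [← Rm, inv_mul_cancel, R1]
    ext x
    simp only [ContinuousLinearMap.comp_apply]
    have : R k⁻¹ (R k x) = x := by
      have := congrArg (fun A : K →L[ℂ] K => A x) e1
      simpa using this
    rw [this]
  set c : ℂ := (((Fintype.card G : ℝ)⁻¹ : ℝ) : ℂ) with hc
  have hcard : (0 : ℝ) < Fintype.card G := by exact_mod_cast Fintype.card_pos
  set E : K →L[ℂ] K := c • ∑ g, F g with hE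
  have hEE0 : ‖E - E0‖ ≤ 10 * t := by
    have e1 : E - E0 = c • ∑ g, (F g - E0) := by
      rw [Finset.sum_sub_distrib, smul_sub, Finset.sum_const, Finset.card_univ, hE]
      congr 1
      rw [← Nat.cast_smul_eq_nsmul ℂ, smul_smul, hc]
      have : ((((Fintype.card G : ℝ)⁻¹ : ℝ) : ℂ) * ((Fintype.card G : ℕ) : ℂ)) = 1 := by
        push_cast
        rw [inv_mul_cancel₀]
        exact_mod_cast hcard.ne'
      rw [this, one_smul]
    rw [e1, norm_smul, hc, Complex.norm_real, Real.norm_of_nonneg (by positivity)]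
    calc (Fintype.card G : ℝ)⁻¹ * ‖∑ g, (F g - E0)‖ ≤ (Fintype.card G : ℝ)⁻¹ * ∑ g : G, 10 * t := by
          gcongr
          refine (norm_sum_le _ _).trans ?_
          gcongr with g
          exact hFE g
      _ = 10 * t := by
          rw [Finset.sum_const, Finset.card_univ, nsmul_eq_mul]
          field_simp
  have hEs : IsSelfAdjoint E := by
    change star E = E
    rw [star_eq_adjoint, hE]
    rw [map_smulₛₗ, map_sum, hc, Complex.conj_ofReal]
    congr 1
    exact Finset.sum_congr rfl fun g _ => hFa g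
  have hEc : ∀ k, Commute E (R k) := by
    intro k
    change E * R k = R k * E
    rw [hE, smul_mul_assoc, mul_smul_comm, Finset.sum_mul, Finset.mul_sum]
    congr 1
    have : ∀ g, R k * F g = F (k * g) * R k := hFconj k
    simp_rw [this]
    exact (Fintype.sum_equiv (Equiv.mulLeft k) _ _ (fun g => rfl)).symm
  have hEn : ‖E‖ ≤ 1017 / 1000 := by
    calc ‖E‖ = ‖(E - E0) + E0‖ := by rw [sub_add_cancel]
      _ ≤ ‖E - E0‖ + ‖E0‖ := norm_add_le _ _
      _ ≤ 10 * t + 1007 / 1000 := add_le_add hEE0 hE0n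
      _ ≤ _ := by linarith
  have hE00 : ‖E0 * E0 - E0‖ ≤ 62 / 10 * t := by
    have e1 : E0 * E0 - E0 = W ∘L (adjoint W ∘L W - 1) ∘L adjoint W := by
      ext x
      simp only [hE0, ContinuousLinearMap.sub_apply, ContinuousLinearMap.mul_apply,
        ContinuousLinearMap.comp_apply, map_sub, ContinuousLinearMap.one_apply]
    rw [e1]
    calc _ ≤ ‖W‖ * ‖(adjoint W ∘L W - 1) ∘L adjoint W‖ := ContinuousLinearMap.opNorm_comp_le _ _
      _ ≤ 1003 / 1000 * (6 * t * (1003 / 1000)) := by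
          gcongr
          refine (ContinuousLinearMap.opNorm_comp_le _ _).trans ?_
          gcongr
      _ ≤ _ := by nlinarith
  have hEE : ‖E * E - E‖ ≤ 40 * t := by
    have e1 : E * E - E = (E0 * E0 - E0) + (E * (E - E0) + (E - E0) * E0 - (E - E0)) := by
      noncomm_ring
    rw [e1]
    calc _ ≤ ‖E0 * E0 - E0‖ + (‖E * (E - E0)‖ + ‖(E - E0) * E0‖ + ‖E - E0‖) := by
            refine (norm_add_le _ _).trans ?_
            gcongr
            refine (norm_sub_le _ _).trans ?_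
            gcongr
            exact norm_add_le _ _
      _ ≤ 62 / 10 * t + (1017 / 1000 * (10 * t) + 10 * t * (1007 / 1000) + 10 * t) := by
            gcongr
            · exact (norm_mul_le _ _).trans (by gcongr)
            · exact (norm_mul_le _ _).trans (by gcongr)
      _ ≤ _ := by nlinarith
  obtain ⟨P, hP, hPE, hPc⟩ := exists_proj_near E hEs (40 * t) (by linarith) hEE
  have hPR : ∀ k, P * R k = R k * P := fun k => hPc _ (hEc k)
  have hPE0 : ‖P - E0‖ ≤ 90 * t := by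
    calc ‖P - E0‖ = ‖(P - E) + (E - E0)‖ := by rw [sub_add_sub_cancel]
      _ ≤ ‖P - E‖ + ‖E - E0‖ := norm_add_le _ _
      _ ≤ 2 * (40 * t) + 10 * t := add_le_add hPE hEE0
      _ = _ := by ring
  have hPa : adjoint P = P := by
    rw [← star_eq_adjoint]; exact hP.isSelfAdjoint
  have hPP : ∀ x, P (P x) = P x := by
    intro x
    have : P * P = P := hP.isIdempotentElem
    have := congrArg (fun A : K →L[ℂ] K => A x) this
    simpa using this
  have hPn : ‖P‖ ≤ 1 := by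
    have : ‖P‖ * ‖P‖ = ‖P‖ := by
      rw [← ContinuousLinearMap.norm_adjoint_comp_self, hPa]
      congr 1
      exact hP.isIdempotentElem
    nlinarith [norm_nonneg P, sq_nonneg (‖P‖ - 1)]
  set T : H →L[ℂ] K := P ∘L W with hT
  have hTT : ‖adjoint T ∘L T - 1‖ ≤ 104 * t := by
    have e1 : adjoint T ∘L T - 1 = adjoint W ∘L (P - E0) ∘L W +
        ((adjoint W ∘L W - 1) * (adjoint W ∘L W - 1) + (2 : ℂ) • (adjoint W ∘L W - 1)) := by
      rw [hT, adjoint_comp, hPa]
      ext x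
      simp only [hE0, ContinuousLinearMap.sub_apply, ContinuousLinearMap.mul_apply,
        ContinuousLinearMap.add_apply, ContinuousLinearMap.smul_apply,
        ContinuousLinearMap.comp_apply, map_sub, ContinuousLinearMap.one_apply, hPP, two_smul]
      abel
    rw [e1]
    calc _ ≤ ‖adjoint W ∘L (P - E0) ∘L W‖ + (‖(adjoint W ∘L W - 1) * (adjoint W ∘L W - 1)‖ +
          ‖(2 : ℂ) • (adjoint W ∘L W - 1)‖) := by
            refine (norm_add_le _ _).trans ?_
            gcongr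
            exact norm_add_le _ _
      _ ≤ 1003 / 1000 * (90 * t * (1003 / 1000)) + (6 * t * (6 * t) + 2 * (6 * t)) := by
            gcongr
            · refine (ContinuousLinearMap.opNorm_comp_le _ _).trans ?_
              gcongr
              refine (ContinuousLinearMap.opNorm_comp_le _ _).trans ?_
              gcongr
            · exact (norm_mul_le _ _).trans (by gcongr)
            · rw [norm_smul]
              simp only [Complex.norm_ofNat]
              gcongr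
      _ ≤ _ := by nlinarith
  obtain ⟨U, hU1, hU2, hU3⟩ := exists_isometry_near T (104 * t) (by linarith) hTT
  set V : H →L[ℂ] K := U.toContinuousLinearMap with hV
  have hVx : ∀ x, V x = U x := fun x => rfl
  have hVV : adjoint V ∘L V = 1 := by
    ext x
    refine ext_inner_left ℂ fun y => ?_
    rw [ContinuousLinearMap.comp_apply, adjoint_inner_right]
    exact U.inner_map_map y x
  have hVVx : ∀ x, adjoint V (V x) = x := by
    intro x
    have := congrArg (fun A : H →L[ℂ] H => A x) hVV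
    simpa using this
  have hPV : ∀ x, P (V x) = V x := by
    intro x
    obtain ⟨y, hy⟩ := hU2 x
    rw [hVx, hy, hT]
    simp only [ContinuousLinearMap.comp_apply, hPP]
  have hVn : ‖V‖ ≤ 1 := U.norm_toContinuousLinearMap_le
  have hVan : ‖adjoint V‖ ≤ 1 := by rw [LinearIsometryEquiv.norm_map]; exact hVn
  have hVP : ∀ x, V (adjoint V x) = P x := by
    intro x
    set y : K := P x - V (adjoint V x) with hy
    have y1 : P y = y := by rw [hy, map_sub, hPP, hPV]
    have y2 : adjoint V y = 0 := by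
      rw [hy, map_sub, hVVx, sub_eq_zero]
      refine ext_inner_left ℂ fun z => ?_
      rw [adjoint_inner_right, adjoint_inner_right, ← adjoint_inner_left P, hPa, hPV]
    have y3 : adjoint W y = 0 := by
      refine ext_inner_left ℂ fun z => ?_
      rw [adjoint_inner_right, inner_zero_right, ← y1, ← adjoint_inner_left P, hPa]
      obtain ⟨z', hz'⟩ := hU3 z
      have : P (W z) = V z' := hz'
      rw [this, ← adjoint_inner_right, y2, inner_zero_right]
    have y4 : ‖y‖ ≤ 90 * t * ‖y‖ := by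
      have e1 : (P - E0) y = y := by
        rw [ContinuousLinearMap.sub_apply, y1, hE0, ContinuousLinearMap.comp_apply, y3, map_zero,
          sub_zero]
      calc ‖y‖ = ‖(P - E0) y‖ := by rw [e1]
        _ ≤ ‖P - E0‖ * ‖y‖ := ContinuousLinearMap.le_opNorm _ _
        _ ≤ _ := by gcongr
    have y5 : ‖y‖ = 0 := by
      have := norm_nonneg y
      nlinarith
    have y6 : y = 0 := norm_eq_zero.1 y5
    rw [hy, sub_eq_zero] at y6
    exact y6.symm
  set Q : G → (H →L[ℂ] H) := fun g => adjoint V ∘L R g ∘L V with hQ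
  have hQm : ∀ g h, Q (g * h) = Q g * Q h := by
    intro g h
    ext x
    simp only [hQ, ContinuousLinearMap.mul_apply, ContinuousLinearMap.comp_apply]
    rw [hVP, Rm, ContinuousLinearMap.comp_apply]
    have : P (R h (V x)) = R h (P (V x)) := by
      have := congrArg (fun A : K →L[ℂ] K => A (V x)) (hPR h)
      simpa using this
    rw [this, hPV]
  have hQ1 : Q 1 = 1 := by
    simp only [hQ, R1]
    ext x
    simp only [ContinuousLinearMap.comp_apply, ContinuousLinearMap.one_apply]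
    exact hVVx x
  have hQs : ∀ g, star (Q g) = Q g⁻¹ := by
    intro g
    simp only [hQ]
    rw [star_eq_adjoint, adjoint_comp, adjoint_comp, adjoint_adjoint, Ra]
    rfl
  refine ⟨{ toFun := fun g => ⟨Q g, ?_⟩, map_one' := ?_, map_mul' := ?_ }, ?_⟩
  · rw [Unitary.mem_iff]
    constructor
    · rw [hQs, ← hQm, inv_mul_cancel, hQ1]
    · rw [hQs, ← hQm, mul_inv_cancel, hQ1]
  · exact Subtype.ext hQ1
  · intro g h
    exact Subtype.ext (hQm g h)
  · intro g
    change ‖Q g - r g‖ ≤ _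
    have hVW : ‖V - W‖ ≤ 305 * t := by
      have e1 : ‖V - T‖ ≤ 208 * t := by
        refine ContinuousLinearMap.opNorm_le_bound _ (by positivity) fun x => ?_
        have := hU1 x
        calc ‖(V - T) x‖ = ‖U x - T x‖ := rfl
          _ ≤ _ := this
          _ = _ := by ring
      have e2 : ‖T - W‖ ≤ 97 * t := by
        have : T - W = (P - E0) ∘L W + W ∘L (adjoint W ∘L W - 1) := by
          ext x
          simp only [hT, hE0, ContinuousLinearMap.sub_apply, ContinuousLinearMap.add_apply,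
            ContinuousLinearMap.comp_apply, map_sub, ContinuousLinearMap.one_apply]
          abel
        rw [this]
        calc _ ≤ ‖(P - E0) ∘L W‖ + ‖W ∘L (adjoint W ∘L W - 1)‖ := norm_add_le _ _
          _ ≤ 90 * t * (1003 / 1000) + 1003 / 1000 * (6 * t) := by
              gcongr
              · refine (ContinuousLinearMap.opNorm_comp_le _ _).trans ?_
                gcongr
              · refine (ContinuousLinearMap.opNorm_comp_le _ _).trans ?_
                gcongr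
          _ ≤ _ := by nlinarith
      calc ‖V - W‖ = ‖(V - T) + (T - W)‖ := by rw [sub_add_sub_cancel]
        _ ≤ ‖V - T‖ + ‖T - W‖ := norm_add_le _ _
        _ ≤ 208 * t + 97 * t := add_le_add e1 e2
        _ = _ := by ring
    have e1 : Q g - r g = adjoint V ∘L (R g ∘L (V - W) + (R g ∘L W - W ∘L r g) +
        (W - V) ∘L r g) := by
      ext x
      simp only [hQ, ContinuousLinearMap.sub_apply, ContinuousLinearMap.add_apply,
        ContinuousLinearMap.comp_apply, map_sub, map_add]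
      have : adjoint V (V (r g x)) = r g x := hVVx _
      rw [this]
      abel
    rw [e1]
    calc _ ≤ ‖adjoint V‖ * ‖R g ∘L (V - W) + (R g ∘L W - W ∘L r g) + (W - V) ∘L r g‖ :=
          ContinuousLinearMap.opNorm_comp_le _ _
      _ ≤ 1 * (1 * (305 * t) + t + 305 * t * (1 + t)) := by
          gcongr
          refine (norm_add_le _ _).trans ?_
          gcongr
          · refine (norm_add_le _ _).trans ?_
            gcongr
            · refine (ContinuousLinearMap.opNorm_comp_le _ _).trans ?_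
              gcongr
              exact Rn g
            · exact hRW g
          · refine (ContinuousLinearMap.opNorm_comp_le _ _).trans ?_
            gcongr
            · rw [norm_sub_rev]; exact hVW
            · exact h1 g
      _ ≤ _ := by nlinarith

end core

/-! ### the concrete space -/

section conc
variable {G : Type u} [Group G] [Fintype G] {H : Type v} [NormedAddCommGroup H]
  [InnerProductSpace ℂ H] [CompleteSpace H]

/-- right translation on `ℓ²(G; H)`. -/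
noncomputable def G_R (G : Type u) [Group G] [Fintype G] (H : Type v) [NormedAddCommGroup H]
    [InnerProductSpace ℂ H] (h : G) :
    (PiLp 2 fun _ : G => H) ≃ₗᵢ[ℂ] PiLp 2 fun _ : G => H :=
  LinearIsometryEquiv.piLpCongrLeft 2 ℂ H (Equiv.mulRight h).symm

theorem G_R_apply (h : G) (f : PiLp 2 fun _ : G => H) (g : G) : G_R G H h f g = f (g * h) := rfl

theorem G_R_adj (h : G) :
    adjoint ((G_R G H h).toContinuousLinearEquiv : (PiLp 2 fun _ : G => H) →L[ℂ] PiLp 2 fun _ : G => H) =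
      ((G_R G H h⁻¹).toContinuousLinearEquiv : (PiLp 2 fun _ : G => H) →L[ℂ] PiLp 2 fun _ : G => H) := by
  ext f : 1
  refine ext_inner_left ℂ fun f' => ?_
  rw [adjoint_inner_right]
  change ⟪G_R G H h f', f⟫_ℂ = ⟪f', G_R G H h⁻¹ f⟫_ℂ
  rw [PiLp.inner_apply, PiLp.inner_apply]
  refine Fintype.sum_equiv (Equiv.mulRight h) _ _ fun g => ?_
  rw [G_R_apply, G_R_apply]
  simp

/-- the embedding `H → ℓ²(G; H)`. -/
noncomputable def G_W (r : G → (H →L[ℂ] H)) : H →L[ℂ] PiLp 2 fun _ : G => H :=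
  ((PiLp.continuousLinearEquiv 2 ℂ (fun _ : G => H)).symm :
    ((_ : G) → H) →L[ℂ] PiLp 2 fun _ : G => H) ∘L
      ContinuousLinearMap.pi fun g => ((((Real.sqrt (Fintype.card G))⁻¹ : ℝ) : ℂ)) • r g

theorem G_W_apply (r : G → (H →L[ℂ] H)) (v : H) (g : G) :
    G_W r v g = ((((Real.sqrt (Fintype.card G))⁻¹ : ℝ) : ℂ)) • r g v := rfl

theorem G_norm_sq (f : PiLp 2 fun _ : G => H) : ‖f‖ ^ 2 = ∑ g, ‖f g‖ ^ 2 := by
  rw [PiLp.norm_sq_eq_of_L2]

theorem near_rep {G : Type u} [Group G] [Fintype G] {H : Type v} [NormedAddCommGroup H]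
    [InnerProductSpace ℂ H] [CompleteSpace H] (ρ₀ : G → (H →L[ℂ] H)) (t : ℝ) (ht : t ≤ 1 / 1000)
    (h1 : ∀ g, ‖ρ₀ g‖ ≤ 1 + t) (hm : ∀ g h, ‖ρ₀ (g * h) - ρ₀ g * ρ₀ h‖ ≤ t)
    (he : ‖ρ₀ 1 - 1‖ ≤ t) :
    ∃ ρ : G →* unitary (H →L[ℂ] H), ∀ g, ‖(ρ g : H →L[ℂ] H) - ρ₀ g‖ ≤ 1000 * t := by
  have ht0 : 0 ≤ t := (norm_nonneg _).trans he
  have hcard : (0 : ℝ) < Fintype.card G := by exact_mod_cast Fintype.card_pos
  have hnear : ∀ g h, g * h = 1 → ‖ρ₀ g ∘L ρ₀ h - 1‖ ≤ 2 * t := by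
    intro g h hgh
    have e1 := hm g h
    rw [hgh] at e1
    calc ‖ρ₀ g ∘L ρ₀ h - 1‖ = ‖(ρ₀ 1 - 1) - (ρ₀ 1 - ρ₀ g * ρ₀ h)‖ := by
          congr 1
          rw [sub_sub_sub_cancel_left]
          rfl
      _ ≤ ‖ρ₀ 1 - 1‖ + ‖ρ₀ 1 - ρ₀ g * ρ₀ h‖ := norm_sub_le _ _
      _ ≤ t + t := add_le_add he e1
      _ = _ := by ring
  have hlow : ∀ g v, (1 - 3 * t) * ‖v‖ ≤ ‖ρ₀ g v‖ := fun g v =>
    G_lower (ρ₀ g⁻¹) (ρ₀ g) t ht0 (hnear _ _ (inv_mul_cancel g)) (h1 _) v
  have hlow' : ∀ g v, (1 - 3 * t) * ‖v‖ ≤ ‖adjoint (ρ₀ g) v‖ := by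
    intro g v
    refine G_lower (adjoint (ρ₀ g⁻¹)) (adjoint (ρ₀ g)) t ht0 ?_ ?_ v
    · have e1 : adjoint (ρ₀ g⁻¹) ∘L adjoint (ρ₀ g) - 1 = adjoint (ρ₀ g ∘L ρ₀ g⁻¹ - 1) := by
        rw [map_sub, adjoint_comp]
        congr 1
        rw [← star_eq_adjoint, star_one]
      rw [e1, LinearIsometryEquiv.norm_map]
      exact hnear _ _ (mul_inv_cancel g)
    · rw [LinearIsometryEquiv.norm_map]; exact h1 _
  have hquad : ∀ (x y : ℝ), 0 ≤ x → 0 ≤ y → (1 - 3 * t) * x ≤ y → y ≤ (1 + t) * x →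
      |y ^ 2 - x ^ 2| ≤ 6 * t * x ^ 2 := by
    intro x y hx hy h2 h3
    have hx3 : 0 ≤ (1 - 3 * t) * x := mul_nonneg (by linarith) hx
    have a1 : ((1 - 3 * t) * x) ^ 2 ≤ y ^ 2 := pow_le_pow_left₀ hx3 h2 2
    have a2 : y ^ 2 ≤ ((1 + t) * x) ^ 2 := pow_le_pow_left₀ hy h3 2
    rw [abs_le]
    have hx2 : 0 ≤ t * x ^ 2 := by positivity
    have hx4 : t * (t * x ^ 2) ≤ 1 * (t * x ^ 2) := by
      apply mul_le_mul_of_nonneg_right _ hx2
      linarith
    have hx5 : 0 ≤ t * (t * x ^ 2) := by positivity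
    constructor <;> nlinarith
  have hup : ∀ g v, ‖ρ₀ g v‖ ≤ (1 + t) * ‖v‖ := fun g v =>
    (ContinuousLinearMap.le_opNorm _ _).trans (by gcongr; exact h1 g)
  have hup' : ∀ g v, ‖adjoint (ρ₀ g) v‖ ≤ (1 + t) * ‖v‖ := fun g v =>
    (ContinuousLinearMap.le_opNorm _ _).trans (by
      gcongr; rw [LinearIsometryEquiv.norm_map]; exact h1 g)
  have hcs : (Real.sqrt (Fintype.card G))⁻¹ ^ 2 = (Fintype.card G : ℝ)⁻¹ := by
    rw [inv_pow, Real.sq_sqrt hcard.le]
  have hcn : ∀ z : H, ‖((((Real.sqrt (Fintype.card G))⁻¹ : ℝ) : ℂ)) • z‖ ^ 2 =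
      (Fintype.card G : ℝ)⁻¹ * ‖z‖ ^ 2 := by
    intro z
    rw [norm_smul, mul_pow, Complex.norm_real, Real.norm_of_nonneg (by positivity), hcs]
  refine G_core ρ₀ t ht0 ht h1 (G_W ρ₀) (fun h => ((G_R G H h).toContinuousLinearEquiv :
    (PiLp 2 fun _ : G => H) →L[ℂ] PiLp 2 fun _ : G => H)) ?_ ?_ (fun g => G_R_adj g) ?_ ?_ ?_ ?_
  · ext f g
    change G_R G H 1 f g = f g
    rw [G_R_apply, mul_one]
  · intro g h
    ext f k
    change G_R G H (g * h) f k = G_R G H g (G_R G H h f) k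
    rw [G_R_apply, G_R_apply, G_R_apply, mul_assoc]
  · intro g
    refine ContinuousLinearMap.opNorm_le_bound _ zero_le_one fun f => ?_
    change ‖G_R G H g f‖ ≤ _
    rw [LinearIsometryEquiv.norm_map, one_mul]
  · apply G_norm_le_of_quad _ _ _ (by positivity)
    · intro v
      have e1 : (⟪v, (adjoint (G_W ρ₀) ∘L G_W ρ₀ - 1) v⟫_ℂ).re = ‖G_W ρ₀ v‖ ^ 2 - ‖v‖ ^ 2 := by
        rw [ContinuousLinearMap.sub_apply, ContinuousLinearMap.comp_apply,
          ContinuousLinearMap.one_apply, inner_sub_right, adjoint_inner_right, Complex.sub_re]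
        rw [inner_self_eq_norm_sq_to_K, inner_self_eq_norm_sq_to_K]
        norm_cast
      rw [e1, G_norm_sq]
      have e2 : ∑ g, ‖G_W ρ₀ v g‖ ^ 2 - ‖v‖ ^ 2 =
          (Fintype.card G : ℝ)⁻¹ * ∑ g, (‖ρ₀ g v‖ ^ 2 - ‖v‖ ^ 2) := by
        rw [Finset.sum_sub_distrib, Finset.sum_const, Finset.card_univ, nsmul_eq_mul, mul_sub,
          ← mul_assoc, inv_mul_cancel₀ hcard.ne', one_mul, Finset.mul_sum]
        congr 1
        exact Finset.sum_congr rfl fun g _ => by rw [G_W_apply, hcn]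
      rw [e2, abs_mul, abs_of_nonneg (by positivity : (0 : ℝ) ≤ (Fintype.card G : ℝ)⁻¹)]
      calc (Fintype.card G : ℝ)⁻¹ * |∑ g, (‖ρ₀ g v‖ ^ 2 - ‖v‖ ^ 2)|
          ≤ (Fintype.card G : ℝ)⁻¹ * ∑ g : G, 6 * t * ‖v‖ ^ 2 := by
            gcongr
            refine (Finset.abs_sum_le_sum_abs _ _).trans ?_
            gcongr with g
            exact hquad _ _ (norm_nonneg _) (norm_nonneg _) (hlow g v) (hup g v)
        _ = _ := by
            rw [Finset.sum_const, Finset.card_univ, nsmul_eq_mul]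
            field_simp
    · rw [map_sub, adjoint_comp, adjoint_adjoint]
      congr 1
      rw [← star_eq_adjoint, star_one]
  · intro h
    refine ContinuousLinearMap.opNorm_le_bound _ ht0 fun v => ?_
    refine le_of_sq_le_sq ?_ (by positivity)
    rw [G_norm_sq]
    have e1 : ∀ g, ‖((((G_R G H h).toContinuousLinearEquiv :
        (PiLp 2 fun _ : G => H) →L[ℂ] PiLp 2 fun _ : G => H) ∘L G_W ρ₀ - G_W ρ₀ ∘L ρ₀ h) v) g‖ ^ 2 =
        (Fintype.card G : ℝ)⁻¹ * ‖(ρ₀ (g * h) - ρ₀ g * ρ₀ h) v‖ ^ 2 := by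
      intro g
      rw [← hcn]
      congr 2
      change G_R G H h (G_W ρ₀ v) g - G_W ρ₀ (ρ₀ h v) g = _
      rw [G_R_apply, G_W_apply, G_W_apply, ← smul_sub]
      rfl
    simp_rw [e1]
    rw [← Finset.mul_sum]
    calc (Fintype.card G : ℝ)⁻¹ * ∑ g, ‖(ρ₀ (g * h) - ρ₀ g * ρ₀ h) v‖ ^ 2
        ≤ (Fintype.card G : ℝ)⁻¹ * ∑ g : G, (t * ‖v‖) ^ 2 := by
          gcongr with g
          exact (ContinuousLinearMap.le_opNorm _ _).trans (by gcongr; exact hm g h)
      _ = _ := by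
          rw [Finset.sum_const, Finset.card_univ, nsmul_eq_mul]
          field_simp
  · intro g
    apply G_norm_le_of_quad _ _ _ (by positivity)
    · intro v
      have e1 : (⟪v, (ρ₀ g ∘L adjoint (ρ₀ g) - 1) v⟫_ℂ).re = ‖adjoint (ρ₀ g) v‖ ^ 2 - ‖v‖ ^ 2 := by
        rw [ContinuousLinearMap.sub_apply, ContinuousLinearMap.comp_apply,
          ContinuousLinearMap.one_apply, inner_sub_right, ← adjoint_inner_left, Complex.sub_re]
        rw [inner_self_eq_norm_sq_to_K, inner_self_eq_norm_sq_to_K]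
        norm_cast
      rw [e1]
      exact hquad _ _ (norm_nonneg _) (norm_nonneg _) (hlow' g v) (hup' g v)
    · exact G_adj_sub_one (ρ₀ g)

end conc

end Pool.Agent.helper32.CK
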